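import Pool.Agent.Helper7_RU.Cal
import Pool.Agent.Helper7_RU.R_POP

/-! # Uniform Roe algebras, embeddings and finite-to-one coarse maps: words, paths, greedy edges -/

set_option autoImplicit false

open Pool.Agent.Helper7_RU

noncomputable section

namespace Pool.Agent.Helper7_FC

theorem hPOP : StPOP := Pool.Agent.Helper7_RU.R_POP.t_POP

/-- letters: `g j e` moves inside the fibres by the `j`-th generator (`e = true`) or its inverse
(`e = false`); `h l e` moves along an edge of label `l`, forwards or backwards -/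
inductive Lt : Type
  | g (j : Fin 4) (e : Bool)
  | h (l : Bool) (e : Bool)
  deriving DecidableEq, Fintype

/-- the four generators, as permutations of `A × A` -/
def gp (A : Type) [CommRing A] (j : Fin 4) : Equiv.Perm (A × A) :=
  match j with
  | 0 => ⟨fun z => (z.1 + 1, z.2), fun z => (z.1 - 1, z.2), fun z => by simp, fun z => by simp⟩
  | 1 => ⟨fun z => (z.1, z.2 + 1), fun z => (z.1, z.2 - 1), fun z => by simp, fun z => by simp⟩
  | 2 => ⟨fun z => (z.1 + z.2, z.2), fun z => (z.1 - z.2, z.2), fun z => by simp, fun z => by simp⟩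
  | 3 => ⟨fun z => (z.1, z.2 + z.1), fun z => (z.1, z.2 - z.1), fun z => by simp, fun z => by simp⟩

/-- the action of a letter on `A × A` (edge letters act trivially) -/
def ac (A : Type) [CommRing A] (a : Lt) (z : A × A) : A × A :=
  match a with
  | .g j true => gp A j z
  | .g j false => (gp A j).symm z
  | .h _ _ => z

/-- the action of a word -/
def acw (A : Type) [CommRing A] (w : List Lt) (z : A × A) : A × A :=
  w.foldl (fun z a => ac A a z) z

/-- words without edge letters -/
def IsPure (w : List Lt) : Prop := ∀ a ∈ w, ∃ j e, a = Lt.g j e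

/-- the word acts trivially on `ℤ × ℤ` -/
def TrZ (w : List Lt) : Prop := ∀ u : ℤ × ℤ, acw ℤ w u = u

/-- the fibre -/
abbrev Fb (p : ℕ) : Type := ZMod p × ZMod p

/-- points of the fibre which are fixed by no nontrivial pure word of length `≤ R` -/
def Good (p R : ℕ) (z : Fb p) : Prop :=
  ∀ w : List Lt, IsPure w → w.length ≤ R → acw (ZMod p) w z = z → TrZ w

/-- the edges of each label -/
abbrev Edg (V : Type) (p : ℕ) : Type := Bool → V × Fb p → V × Fb p → Prop

/-- a move by one letter -/
def stp {V : Type} {p : ℕ} (E : Edg V p) (a : Lt) (y y' : V × Fb p) : Prop :=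
  match a with
  | .g j e => y' = (y.1, ac (ZMod p) (.g j e) y.2)
  | .h l true => E l y y'
  | .h l false => E l y' y

/-- paths labelled by words -/
def pth {V : Type} {p : ℕ} (E : Edg V p) : List Lt → V × Fb p → V × Fb p → Prop
  | [], y, y' => y = y'
  | a :: w, y, y' => ∃ z, stp E a y z ∧ pth E w z y'

/-- the inverse letter -/
def iv (a : Lt) : Lt :=
  match a with
  | .g j e => .g j (!e)
  | .h l e => .h l (!e)

/-- the inverse word -/
def rv (w : List Lt) : List Lt := (w.map iv).reverse

/-- the edges with one edge removed -/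
def rm {V : Type} {p : ℕ} (E : Edg V p) (l : Bool) (y y' : V × Fb p) : Edg V p :=
  fun l' a b => E l' a b ∧ ¬ (l' = l ∧ a = y ∧ b = y')

/-- edges of large girth between good points -/
structure GoodE {V : Type} {p : ℕ} (R : ℕ) (E : Edg V p) : Prop where
  out : ∀ l y y' y'', E l y y' → E l y y'' → y' = y''
  inn : ∀ l y y' y'', E l y y'' → E l y' y'' → y = y'
  gd : ∀ l y y', E l y y' → Good p R y.2 ∧ Good p R y'.2
  br : ∀ l y y', E l y y' → ∀ w : List Lt, w.length ≤ R → ¬ pth (rm E l y y') w y y'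

/-! ## basic facts -/

variable {V : Type} {p : ℕ}

@[simp] theorem acw_nil (A : Type) [CommRing A] (z : A × A) : acw A [] z = z := rfl

@[simp] theorem acw_cons (A : Type) [CommRing A] (a : Lt) (w : List Lt) (z : A × A) :
    acw A (a :: w) z = acw A w (ac A a z) := rfl

theorem acw_append (A : Type) [CommRing A] (u w : List Lt) (z : A × A) :
    acw A (u ++ w) z = acw A w (acw A u z) := by
  simp [acw, List.foldl_append]

@[simp] theorem pth_nil (E : Edg V p) (y y' : V × Fb p) : pth E [] y y' ↔ y = y' := Iff.rfl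

theorem pth_cons (E : Edg V p) (a : Lt) (w : List Lt) (y y' : V × Fb p) :
    pth E (a :: w) y y' ↔ ∃ z, stp E a y z ∧ pth E w z y' := Iff.rfl

theorem pth_append (E : Edg V p) (u w : List Lt) (y y' : V × Fb p) :
    pth E (u ++ w) y y' ↔ ∃ z, pth E u y z ∧ pth E w z y' := by
  induction u generalizing y with
  | nil => simp
  | cons a u ih =>
    simp only [List.cons_append, pth_cons, ih]
    constructor
    · rintro ⟨z, hz, z', h1, h2⟩; exact ⟨z', ⟨z, hz, h1⟩, h2⟩
    · rintro ⟨z', ⟨z, hz, h1⟩, h2⟩; exact ⟨z, hz, z', h1, h2⟩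

theorem stp_iv (E : Edg V p) (a : Lt) (y y' : V × Fb p) : stp E (iv a) y' y ↔ stp E a y y' := by
  rcases a with ⟨j, e⟩ | ⟨l, e⟩
  · rcases y with ⟨v, z⟩
    rcases y' with ⟨v', z'⟩
    cases e
    · simp only [iv, stp, ac, Bool.not_false, Prod.mk.injEq]
      constructor
      · rintro ⟨rfl, rfl⟩; simp
      · rintro ⟨rfl, rfl⟩; simp
    · simp only [iv, stp, ac, Bool.not_true, Prod.mk.injEq]
      constructor
      · rintro ⟨rfl, rfl⟩; simp
      · rintro ⟨rfl, rfl⟩; simp
  · cases e <;> simp [iv, stp]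

theorem pth_rv (E : Edg V p) (w : List Lt) (y y' : V × Fb p) :
    pth E (rv w) y' y ↔ pth E w y y' := by
  induction w generalizing y with
  | nil => simp only [rv, List.map_nil, List.reverse_nil, pth_nil]; exact eq_comm
  | cons a w ih =>
    have h1 : rv (a :: w) = rv w ++ [iv a] := by simp [rv]
    rw [h1, pth_append, pth_cons]
    constructor
    · rintro ⟨z, h2, z', h3, h4⟩
      rw [pth_nil] at h4
      subst h4
      exact ⟨z, (stp_iv E a _ _).1 h3, (ih z).1 h2⟩
    · rintro ⟨z, h2, h3⟩
      exact ⟨z, (ih z).2 h3, y, (stp_iv E a _ _).2 h2, rfl⟩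

@[simp] theorem length_rv (w : List Lt) : (rv w).length = w.length := by simp [rv]

theorem stp_det {E : Edg V p} (ho : ∀ l y y' y'', E l y y' → E l y y'' → y' = y'')
    (hi : ∀ l y y' y'', E l y y'' → E l y' y'' → y = y') {a : Lt} {y z z' : V × Fb p}
    (h : stp E a y z) (h' : stp E a y z') : z = z' := by
  rcases a with ⟨j, e⟩ | ⟨l, e⟩
  · exact Eq.trans h (Eq.symm h')
  · cases e
    · exact hi l _ _ _ h h'
    · exact ho l _ _ _ h h'

theorem pth_det {E : Edg V p} (ho : ∀ l y y' y'', E l y y' → E l y y'' → y' = y'')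
    (hi : ∀ l y y' y'', E l y y'' → E l y' y'' → y = y') {w : List Lt} {y z z' : V × Fb p}
    (h : pth E w y z) (h' : pth E w y z') : z = z' := by
  induction w generalizing y with
  | nil => exact (Eq.symm h).trans h'
  | cons a w ih =>
    obtain ⟨x, hx, h1⟩ := h
    obtain ⟨x', hx', h1'⟩ := h'
    have := stp_det ho hi hx hx'
    subst this
    exact ih h1 h1'

theorem stp_mono {E E' : Edg V p} (h : ∀ l y y', E l y y' → E' l y y') {a : Lt}
    {y y' : V × Fb p} (h1 : stp E a y y') : stp E' a y y' := by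
  rcases a with ⟨j, e⟩ | ⟨l, e⟩
  · exact h1
  · cases e
    · exact h l _ _ h1
    · exact h l _ _ h1

theorem pth_mono {E E' : Edg V p} (h : ∀ l y y', E l y y' → E' l y y') {w : List Lt}
    {y y' : V × Fb p} (h1 : pth E w y y') : pth E' w y y' := by
  induction w generalizing y with
  | nil => exact h1
  | cons a w ih =>
    obtain ⟨x, hx, h2⟩ := h1
    exact ⟨x, stp_mono h hx, ih h2⟩

theorem isPure_nil : IsPure [] := by intro a ha; simp at ha

theorem isPure_cons {a : Lt} {w : List Lt} :
    IsPure (a :: w) ↔ (∃ j e, a = Lt.g j e) ∧ IsPure w := by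
  simp [IsPure]

theorem isPure_append {u w : List Lt} : IsPure (u ++ w) ↔ IsPure u ∧ IsPure w := by
  simp only [IsPure, List.mem_append]
  constructor
  · intro h; exact ⟨fun a ha => h a (Or.inl ha), fun a ha => h a (Or.inr ha)⟩
  · rintro ⟨h1, h2⟩ a (ha | ha)
    · exact h1 a ha
    · exact h2 a ha

/-- pure words move inside the fibres -/
theorem pth_pure {E : Edg V p} {w : List Lt} (hw : IsPure w) (y y' : V × Fb p) :
    pth E w y y' ↔ y' = (y.1, acw (ZMod p) w y.2) := by
  induction w generalizing y with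
  | nil => simp only [pth_nil, acw_nil]; exact eq_comm
  | cons a w ih =>
    obtain ⟨⟨j, e, rfl⟩, hw'⟩ := isPure_cons.1 hw
    rw [pth_cons]
    constructor
    · rintro ⟨z, hz, h1⟩
      rw [ih hw'] at h1
      rw [h1, hz]
      rfl
    · intro h1
      exact ⟨_, rfl, (ih hw' _).2 h1⟩

/-- the reduction modulo `p` -/
def redp (p : ℕ) (u : ℤ × ℤ) : Fb p := ((u.1 : ZMod p), (u.2 : ZMod p))

theorem ac_redp (p : ℕ) (a : Lt) (u : ℤ × ℤ) : ac (ZMod p) a (redp p u) = redp p (ac ℤ a u) := by
  rcases a with ⟨j, e⟩ | ⟨l, e⟩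
  · cases e <;> fin_cases j <;> simp [ac, gp, redp]
  · rfl

theorem acw_redp (p : ℕ) (w : List Lt) (u : ℤ × ℤ) :
    acw (ZMod p) w (redp p u) = redp p (acw ℤ w u) := by
  induction w generalizing u with
  | nil => rfl
  | cons a w ih => rw [acw_cons, acw_cons, ac_redp, ih]

theorem redp_surj (p : ℕ) (z : Fb p) : ∃ u, redp p u = z := by
  obtain ⟨a, ha⟩ := ZMod.intCast_surjective z.1
  obtain ⟨b, hb⟩ := ZMod.intCast_surjective z.2
  exact ⟨(a, b), by simp [redp, ha, hb]⟩

/-- words which act trivially on `ℤ × ℤ` act trivially on the fibres -/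
theorem TrZ.acw_eq {w : List Lt} (h : TrZ w) (p : ℕ) (z : Fb p) : acw (ZMod p) w z = z := by
  obtain ⟨u, rfl⟩ := redp_surj p z
  rw [acw_redp, h u]

/-- a step relation -/
def rch {Z : Type} (S : Z → Z → Prop) : ℕ → Z → Z → Prop
  | 0, x, y => x = y
  | m + 1, x, y => ∃ z, rch S m x z ∧ (z = y ∨ S z y)

theorem rch_mono {Z : Type} {S : Z → Z → Prop} {m : ℕ} {x y : Z} (h : rch S m x y) :
    rch S (m + 1) x y := ⟨y, h, Or.inl rfl⟩

theorem rch_le {Z : Type} {S : Z → Z → Prop} {m m' : ℕ} (hm : m ≤ m') {x y : Z}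
    (h : rch S m x y) : rch S m' x y := by
  induction hm with
  | refl => exact h
  | step _ ih => exact rch_mono ih

theorem rch_refl {Z : Type} (S : Z → Z → Prop) (m : ℕ) (x : Z) : rch S m x x :=
  rch_le (Nat.zero_le m) rfl

theorem rch_trans {Z : Type} {S : Z → Z → Prop} {m m' : ℕ} {x y z : Z} (h : rch S m x y)
    (h' : rch S m' y z) : rch S (m + m') x z := by
  induction m' generalizing z with
  | zero => rw [← show y = z from h']; exact h
  | succ m' ih =>
    obtain ⟨u, hu, h1⟩ := h'
    exact ⟨u, ih hu, h1⟩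

theorem rch_one {Z : Type} {S : Z → Z → Prop} {x y : Z} (h : S x y) : rch S 1 x y :=
  ⟨x, rfl, Or.inr h⟩

theorem rch_symm {Z : Type} {S : Z → Z → Prop} (hS : ∀ x y, S x y → S y x) {m : ℕ} {x y : Z}
    (h : rch S m x y) : rch S m y x := by
  induction m generalizing y with
  | zero => exact Eq.symm h
  | succ m ih =>
    obtain ⟨z, hz, h1⟩ := h
    have h2 : rch S 1 y z := by
      rcases h1 with rfl | h1
      · exact rch_refl S 1 z
      · exact rch_one (hS _ _ h1)
    have := rch_trans h2 (ih hz)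
    rwa [Nat.add_comm] at this

/-- moves by any letter -/
def sany {V : Type} {p : ℕ} (E : Edg V p) (y y' : V × Fb p) : Prop := ∃ a, stp E a y y'

theorem sany_symm {V : Type} {p : ℕ} (E : Edg V p) (y y' : V × Fb p) (h : sany E y y') :
    sany E y' y := by
  obtain ⟨a, ha⟩ := h
  exact ⟨iv a, (stp_iv E a _ _).2 ha⟩

theorem rch_of_pth {V : Type} {p : ℕ} {E : Edg V p} {w : List Lt} {y y' : V × Fb p}
    (h : pth E w y y') : rch (sany E) w.length y y' := by
  induction w generalizing y with
  | nil => exact h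
  | cons a w ih =>
    obtain ⟨z, hz, h1⟩ := h
    have := rch_trans (rch_one (S := sany E) ⟨a, hz⟩) (ih h1)
    rwa [Nat.add_comm] at this

theorem pth_of_rch {V : Type} {p : ℕ} {E : Edg V p} {m : ℕ} {y y' : V × Fb p}
    (h : rch (sany E) m y y') : ∃ w : List Lt, w.length ≤ m ∧ pth E w y y' := by
  induction m generalizing y' with
  | zero => exact ⟨[], le_rfl, h⟩
  | succ m ih =>
    obtain ⟨z, hz, h1⟩ := h
    obtain ⟨w, hw, hp⟩ := ih hz
    rcases h1 with rfl | ⟨a, ha⟩
    · exact ⟨w, by omega, hp⟩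
    · refine ⟨w ++ [a], by simp; omega, (pth_append _ _ _ _ _).2 ⟨z, hp, y', ha, rfl⟩⟩

end Pool.Agent.Helper7_FC
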