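import Pool.Agent.Helper7_FC.Defs

/-! # Uniform Roe algebras, embeddings and finite-to-one coarse maps: statements of the parts -/

set_option autoImplicit false

open Pool.Agent.Helper7_RU

noncomputable section

namespace Pool.Agent.Helper7_FC

/-! ## Combinatorics -/

/-- a closed path which is not pure contains a cancelling pair of edge letters -/
def StCLS : Prop :=
  ∀ (V : Type) (p R : ℕ) (E : Edg V p), GoodE R E → ∀ (w : List Lt) (y : V × Fb p),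
    w.length ≤ R → pth E w y y → ¬ IsPure w →
    ∃ (u g t : List Lt) (l e : Bool) (z z' : V × Fb p),
      w = u ++ (Lt.h l e :: (g ++ (Lt.h l (!e) :: t))) ∧ IsPure g ∧ pth E u y z ∧
      stp E (Lt.h l e) z z' ∧ pth E g z' z' ∧ pth E t z y

/-- words which reduce to the trivial word -/
inductive Triv : List Lt → Prop
  | pure (w : List Lt) : IsPure w → TrZ w → Triv w
  | canc (u g t : List Lt) (l e : Bool) : IsPure g → TrZ g → Triv (u ++ t) →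
      Triv (u ++ (Lt.h l e :: (g ++ (Lt.h l (!e) :: t))))

/-- short closed paths have trivial words, and paths with trivial words are closed -/
def StTRI : Prop :=
  ∀ (V : Type) (p R : ℕ) (E : Edg V p), GoodE R E →
    (∀ (w : List Lt) (y : V × Fb p), Good p R y.2 → w.length ≤ R → pth E w y y → Triv w) ∧
    (∀ (w : List Lt) (y y' : V × Fb p), Triv w → pth E w y y' → y = y')

/-- the base moves: label `true`: from `i` to `i + 1`; label `false`: from `i` to `σ i` -/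
def nx {k : ℕ} (σ : Equiv.Perm (Fin k)) (l : Bool) (i j : Fin k) : Prop :=
  match l with
  | true => j.val = i.val + 1
  | false => j = σ i

/-- the graph of `σ` has no regular map of quality `n` into a space of large girth -/
def Avoid (n k : ℕ) (σ : Equiv.Perm (Fin k)) : Prop :=
  ∀ (V : Type) (p : ℕ) (E : Edg V p) (f : Fin k → V × Fb p),
    GoodE (4 * n * (k + 1)) E → (∀ i, Good p (4 * n * (k + 1)) (f i).2) →
    (∀ i j : Fin k, j.val = i.val + 1 → ∃ w : List Lt, w.length ≤ n ∧ pth E w (f i) (f j)) →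
    (∀ i : Fin k, ∃ w : List Lt, w.length ≤ n ∧ pth E w (f i) (f (σ i))) →
    (∀ y, (f ⁻¹' {y}).ncard ≤ n) → False

/-- counting permutations -/
def StCNT : Prop :=
  ∀ n : ℕ, ∃ k0 : ℕ, ∀ k : ℕ, k0 ≤ k → 0 < k → ∃ σ : Equiv.Perm (Fin k), Avoid n k σ

/-- few points are not good -/
def StNRS : Prop :=
  ∀ R : ℕ, ∃ p0 : ℕ, ∀ p : ℕ, p.Prime → p0 ≤ p → 4 * {z : Fb p | ¬ Good p R z}.ncard ≤ p ^ 2

/-- the greedy choice of the edges -/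
def StGRE : Prop :=
  ∀ (k R p : ℕ) (σ : Equiv.Perm (Fin k)), p.Prime →
    4 * {z : Fb p | ¬ Good p R z}.ncard ≤ p ^ 2 → 4 * 13 ^ R < p ^ 2 →
    ∃ E : Edg (Fin k) p, GoodE R E ∧ (∀ l y y', E l y y' → nx σ l y.1 y'.1) ∧
      ∀ l i j, nx σ l i j → p ^ 2 ≤ 2 * {z : Fb p | ∃ z', E l (i, z) (j, z')}.ncard

/-! ## The spectral gap -/

/-- Fourier transform -/
def StGAPF : Prop :=
  ∀ (p : ℕ) [Fact p.Prime], 5 ≤ p → ∀ f : Fb p → ℂ, ∑ z, f z = 0 →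
    ∃ F : Fb p → ℂ, F 0 = 0 ∧ ∑ c, ‖F c‖ ^ 2 = ∑ z, ‖f z‖ ^ 2 ∧
      ∑ c : Fb p with p ≤ 4 * c.1.valMinAbs.natAbs, ‖F c‖ ^ 2 ≤
        ∑ z, ‖f (gp (ZMod p) 0 z) - f z‖ ^ 2 ∧
      ∑ c : Fb p with p ≤ 4 * c.2.valMinAbs.natAbs, ‖F c‖ ^ 2 ≤
        ∑ z, ‖f (gp (ZMod p) 1 z) - f z‖ ^ 2 ∧
      ∑ c : Fb p, ‖F (c.1, c.2 - c.1) - F c‖ ^ 2 = ∑ z, ‖f (gp (ZMod p) 2 z) - f z‖ ^ 2 ∧
      ∑ c : Fb p, ‖F (c.1 - c.2, c.2) - F c‖ ^ 2 = ∑ z, ‖f (gp (ZMod p) 3 z) - f z‖ ^ 2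

/-- the argument with the quadrants -/
def StGAPC : Prop :=
  ∃ ε : ℝ, 0 < ε ∧ ∀ (p : ℕ) [Fact p.Prime], 5 ≤ p → ∀ F : Fb p → ℂ, F 0 = 0 →
    ε * ∑ c, ‖F c‖ ^ 2 ≤ ∑ c : Fb p with p ≤ 4 * c.1.valMinAbs.natAbs, ‖F c‖ ^ 2 +
      ∑ c : Fb p with p ≤ 4 * c.2.valMinAbs.natAbs, ‖F c‖ ^ 2 +
      ∑ c : Fb p, ‖F (c.1, c.2 - c.1) - F c‖ ^ 2 + ∑ c : Fb p, ‖F (c.1 - c.2, c.2) - F c‖ ^ 2

/-- the spectral gap -/
def StGAP : Prop :=
  ∃ ε : ℝ, 0 < ε ∧ ∀ (p : ℕ) [Fact p.Prime], 5 ≤ p → ∀ f : Fb p → ℂ, ∑ z, f z = 0 →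
    ε * ∑ z, ‖f z‖ ^ 2 ≤ ∑ j : Fin 4, ∑ z, ‖f (gp (ZMod p) j z) - f z‖ ^ 2

theorem gap_of (h1 : StGAPF) (h2 : StGAPC) : StGAP := by
  obtain ⟨ε, hε, h⟩ := h2
  refine ⟨ε, hε, fun p _ hp f hf => ?_⟩
  obtain ⟨F, hF0, hF, a, b, c, d⟩ := h1 p hp f hf
  have := h p hp F hF0
  rw [hF] at this
  rw [Fin.sum_univ_four]
  linarith

/-! ## Operators -/

/-- isometries from orthonormal families -/
def StISO : Prop :=
  ∀ (X Y : Type) (w : X → Hs Y), Orthonormal ℂ w → ∃ W : Hs X →L[ℂ] Hs Y,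
    (∀ x, W (dl x) = w x) ∧ ContinuousLinearMap.adjoint W ∘L W = 1

/-- `W` maps `δ_x` to the normalised indicator function of the fibre `s x` -/
def IsW {X Y : Type} (s : X → Finset Y) (W : Hs X →L[ℂ] Hs Y) : Prop :=
  ∀ x, W (dl x) = ((Real.sqrt (s x).card : ℝ) : ℂ)⁻¹ • ∑ y ∈ s x, dl y

open Classical in
/-- the isometry of a map with finite fibres, and its range projection -/
def StWEX : Prop :=
  ∀ (X Y : Type) (π : Y → X) (s : X → Finset Y), (∀ x y, y ∈ s x ↔ π y = x) →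
    (∀ x, (s x).Nonempty) →
    (∃ W : Hs X →L[ℂ] Hs Y, IsW s W) ∧
    ∀ W : Hs X →L[ℂ] Hs Y, IsW s W → ContinuousLinearMap.adjoint W ∘L W = 1 ∧
      (∀ y, ContinuousLinearMap.adjoint W (dl y) =
        ((Real.sqrt (s (π y)).card : ℝ) : ℂ)⁻¹ • dl (π y)) ∧
      ∀ y y', ent (W ∘L ContinuousLinearMap.adjoint W) y y' =
        if π y = π y' then (((s (π y)).card : ℝ) : ℂ)⁻¹ else 0

/-- the moves by the generators -/
def sg {Z : Type} (γ : Fin 4 → Equiv.Perm Z) (a b : Z) : Prop := ∃ j, b = γ j a ∨ a = γ j b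

/-- the averaging projection is a norm limit of operators of finite propagation -/
def StAVG1 : Prop :=
  ∀ (X Z : Type) (π : Z → X) (s : X → Finset Z) (γ : Fin 4 → Equiv.Perm Z) (ε : ℝ),
    (∀ x z, z ∈ s x ↔ π z = x) → (∀ x, (s x).Nonempty) → (∀ j z, π (γ j z) = π z) → 0 < ε →
    (∀ x, ∀ f : Z → ℂ, ∑ z ∈ s x, f z = 0 →
      ε * ∑ z ∈ s x, ‖f z‖ ^ 2 ≤ ∑ j, ∑ z ∈ s x, ‖f (γ j z) - f z‖ ^ 2) →
    ∀ W : Hs X →L[ℂ] Hs Z, IsW s W → ∀ δ : ℝ, 0 < δ →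
      ∃ (m : ℕ) (h : Op Z), ‖h - W ∘L ContinuousLinearMap.adjoint W‖ < δ ∧
        ∀ z z', ent h z z' ≠ 0 → rch (sg γ) m z z'

/-- the averaging projection of a subspace -/
def StAVG2 : Prop :=
  ∀ (X Y Z : Type) [MetricSpace Y] (π : Z → X) (i : Y → Z) (sZ : X → Finset Z)
    (sY : X → Finset Y) (γ : Fin 4 → Equiv.Perm Z) (ε : ℝ),
    (∀ x z, z ∈ sZ x ↔ π z = x) → Function.Injective i → (∀ x y, y ∈ sY x ↔ π (i y) = x) →
    (∀ x, (sY x).Nonempty) → (∀ x, (sZ x).card ≤ 2 * (sY x).card) →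
    (∀ j z, π (γ j z) = π z) → 0 < ε →
    (∀ x, ∀ f : Z → ℂ, ∑ z ∈ sZ x, f z = 0 →
      ε * ∑ z ∈ sZ x, ‖f z‖ ^ 2 ≤ ∑ j, ∑ z ∈ sZ x, ‖f (γ j z) - f z‖ ^ 2) →
    (∀ (m : ℕ) (y y' : Y), rch (sg γ) m (i y) (i y') → dist y y' ≤ m) →
    ∀ W : Hs X →L[ℂ] Hs Y, IsW sY W → W ∘L ContinuousLinearMap.adjoint W ∈ uRoe Y

/-- the operators `T` with `W T W* ∈ C*_u(Y)` -/
def calA {X Y : Type} [MetricSpace Y] (W : Hs X →L[ℂ] Hs Y) : Set (Op X) :=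
  {T | W ∘L T ∘L ContinuousLinearMap.adjoint W ∈ uRoe Y}

/-- partial bijections with lifts are in `calA` -/
def StROE1 : Prop :=
  ∀ (X Y : Type) [MetricSpace Y] (π : Y → X) (s : X → Finset Y) (W : Hs X →L[ℂ] Hs Y),
    (∀ x y, y ∈ s x ↔ π y = x) → (∀ x, (s x).Nonempty) → IsW s W →
    W ∘L ContinuousLinearMap.adjoint W ∈ uRoe Y →
    (∀ T ∈ calA W, ∀ S ∈ calA W, T + S ∈ calA W ∧ T * S ∈ calA W ∧ star T ∈ calA W) ∧
    (∀ f : X → ℂ, Bd f → mulc f ∈ calA W) ∧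
    (∀ (f : X → ℂ) (φ : X → X), {x | f x ≠ 0}.Finite → Adm f φ → pop f φ ∈ calA W) ∧
    ∀ (A : Y → Y → Prop) (f : X → ℂ) (φ : X → X), Adm f φ →
      (∀ y y' y'', A y y' → A y y'' → y' = y'') → (∀ y y' y'', A y y'' → A y' y'' → y = y') →
      (∀ y y', A y y' → dist y y' ≤ 1) →
      (∀ y y', A y y' → f (π y) ≠ 0 → π y' = φ (π y)) →
      (∀ x, f x ≠ 0 → (s x).card = (s (φ x)).card ∧
        (s x).card ≤ 2 * {y | π y = x ∧ ∃ y', A y y'}.ncard) → pop f φ ∈ calA W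

/-- operators of finite propagation are in `calA` -/
def StROE2 : Prop :=
  ∀ (X : Type) [MetricSpace X] (𝒜 : Set (Op X)) (S : Bool → X → X → Prop),
    (∀ T ∈ 𝒜, ∀ T' ∈ 𝒜, T + T' ∈ 𝒜 ∧ T * T' ∈ 𝒜 ∧ star T ∈ 𝒜) →
    (∀ f : X → ℂ, Bd f → mulc f ∈ 𝒜) →
    (∀ (f : X → ℂ) (φ : X → X), {x | f x ≠ 0}.Finite → Adm f φ → pop f φ ∈ 𝒜) →
    (∀ (l : Bool) (f : X → ℂ) (φ : X → X), Adm f φ → (∀ x, f x ≠ 0 → S l x (φ x)) →
      pop f φ ∈ 𝒜) →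
    (∀ l x x' x'', S l x x' → S l x x'' → x' = x'') →
    (∀ l x x' x'', S l x x'' → S l x' x'' → x = x') →
    (∀ r : ℝ, ∃ (t : Set X) (m : ℕ), t.Finite ∧ ∀ x x', dist x x' ≤ r →
      (x ∈ t ∧ x' ∈ t) ∨ rch (fun a b => ∃ l, S l a b ∨ S l b a) m x x') →
    ∀ T : Op X, FinProp T → T ∈ 𝒜

/-! ## Metric spaces -/

/-- the metric is that of a coarse union of the blocks `V n`; the relation `B n r` says that the
distance inside the block is at most `r` -/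
structure CU (V : ℕ → Type) (B : ∀ n, ℕ → V n → V n → Prop) [MetricSpace (Σ n, V n)] :
    Prop where
  le : ∀ (n r : ℕ) (x y : V n), B n r x y → dist (⟨n, x⟩ : Σ n, V n) ⟨n, y⟩ ≤ r
  of : ∀ (n : ℕ) (r : ℝ) (x y : V n), r < n → dist (⟨n, x⟩ : Σ n, V n) ⟨n, y⟩ ≤ r →
    B n ⌊r⌋₊ x y
  ne : ∀ (n m : ℕ) (x : V n) (y : V m), n ≠ m → (n + m : ℝ) ≤ dist (⟨n, x⟩ : Σ n, V n) ⟨m, y⟩

/-- coarse unions exist -/
def StMET : Prop :=
  ∀ (V : ℕ → Type) (B : ∀ n, ℕ → V n → V n → Prop), (∀ n x y, B n 0 x y ↔ x = y) →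
    (∀ n r x y, B n r x y → B n r y x) →
    (∀ n r t x y z, B n r x y → B n t y z → B n (r + t) x z) →
    (∀ n r x y, B n r x y → B n (r + 1) x y) → ∃ _ : MetricSpace (Σ n, V n), CU V B

/-- bounded geometry -/
def StBG : Prop :=
  (∀ (Z : Type) (S : Z → Z → Prop) (c : ℕ), (∀ x, {y | S x y}.encard ≤ c) →
    ∀ m x, {y | rch S m x y}.encard ≤ ((c + 1) ^ m : ℕ)) ∧
  ∀ (V : ℕ → Type) (B : ∀ n, ℕ → V n → V n → Prop) [MetricSpace (Σ n, V n)] (c : ℕ → ℕ),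
    CU V B → (∀ n, Finite (V n)) → (∀ n r x, {y | B n r x y}.encard ≤ (c r : ℕ∞)) →
    ∀ r : ℝ, ∃ N : ℕ, ∀ x : Σ n, V n,
      (Metric.closedBall x r).Finite ∧ (Metric.closedBall x r).ncard ≤ N

/-! ## The spaces -/

/-- the data for the two spaces -/
structure Dat where
  k : ℕ → ℕ
  σ : ∀ n, Equiv.Perm (Fin (k n))
  p : ℕ → ℕ
  R : ℕ → ℕ
  E : ∀ n, Edg (Fin (k n)) (p n)
  kpos : ∀ n, 0 < k n
  prim : ∀ n, (p n).Prime
  p5 : ∀ n, 5 ≤ p n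
  good : ∀ n, GoodE (R n) (E n)
  tgt : ∀ n l y y', E n l y y' → nx (σ n) l y.1 y'.1
  half : ∀ n l i j, nx (σ n) l i j →
    (p n) ^ 2 ≤ 2 * {z : Fb (p n) | ∃ z', E n l (i, z) (j, z')}.ncard
  avoid : ∀ n, Avoid n (k n) (σ n)
  rbig : ∀ n, 4 * n * (k n + 1) ≤ R n
  rmono : Monotone R
  kbig : ∀ n, n * ∑ m ∈ Finset.range n, k m * (p m) ^ 2 < k n

/-- the data exist -/
def StREC : Prop := StCNT → StNRS → StGRE → Nonempty Dat

/-- the blocks of `X` -/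
abbrev XV (D : Dat) (n : ℕ) : Type := Fin (D.k n)

/-- the blocks of `Y` -/
abbrev YV (D : Dat) (n : ℕ) : Type :=
  {y : Fin (D.k n) × Fb (D.p n) // Good (D.p n) (D.R n) y.2}

/-- distances in the blocks of `X` -/
def BX (D : Dat) (n r : ℕ) (i j : XV D n) : Prop :=
  rch (fun a b => ∃ l, nx (D.σ n) l a b ∨ nx (D.σ n) l b a) r i j

/-- distances in the blocks of `Y` -/
def BY (D : Dat) (n r : ℕ) (y y' : YV D n) : Prop := rch (sany (D.E n)) r y.1 y'.1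

/-- there is no finite-to-one coarse map -/
def StNON : Prop :=
  ∀ (D : Dat) [MetricSpace (Σ n, XV D n)] [MetricSpace (Σ n, YV D n)],
    CU (XV D) (BX D) → CU (YV D) (BY D) →
    ¬ ∃ f : (Σ n, XV D n) → (Σ n, YV D n),
        (∃ s : ℝ, ∀ x x', dist x x' ≤ 1 → dist (f x) (f x') ≤ s) ∧
        (∃ N : ℕ, ∀ y, (f ⁻¹' {y}).Finite ∧ (f ⁻¹' {y}).ncard ≤ N)

/-- the embedding -/
def StFIN : Prop :=
  ∀ (D : Dat) [MetricSpace (Σ n, XV D n)] [MetricSpace (Σ n, YV D n)],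
    CU (XV D) (BX D) → CU (YV D) (BY D) →
    ∃ W : Hs (Σ n, XV D n) →L[ℂ] Hs (Σ n, YV D n), ContinuousLinearMap.adjoint W ∘L W = 1 ∧
      ∀ T : Op (Σ n, XV D n), FinProp T →
        W ∘L T ∘L ContinuousLinearMap.adjoint W ∈ uRoe (Σ n, YV D n)

/-- bounded geometry of the two spaces -/
def StBGD : Prop :=
  ∀ (D : Dat) [MetricSpace (Σ n, XV D n)] [MetricSpace (Σ n, YV D n)],
    CU (XV D) (BX D) → CU (YV D) (BY D) →
    (∀ r : ℝ, ∃ N : ℕ, ∀ x : Σ n, XV D n,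
      (Metric.closedBall x r).Finite ∧ (Metric.closedBall x r).ncard ≤ N) ∧
    (∀ r : ℝ, ∃ N : ℕ, ∀ x : Σ n, YV D n,
      (Metric.closedBall x r).Finite ∧ (Metric.closedBall x r).ncard ≤ N)

end Pool.Agent.Helper7_FC
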