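import Pool.Agent.Helper7_FC.Stm

/-! # The embedding clauses of the two frozen statements -/

set_option autoImplicit false

open Pool.Agent.Helper7_RU

noncomputable section

namespace Pool.Agent.Helper7_FC

open Classical in
/-- the clause of the first frozen statement -/
def StEA : Prop :=
  ∀ (X Y : Type) [MetricSpace X] [MetricSpace Y] (W : Hs X →L[ℂ] Hs Y),
    ContinuousLinearMap.adjoint W ∘L W = 1 →
    (∀ T : Op X, FinProp T → W ∘L T ∘L ContinuousLinearMap.adjoint W ∈ uRoe Y) →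
    (∃ Φ : (lp (fun _ : X => ℂ) 2 →L[ℂ] lp (fun _ : X => ℂ) 2) →
        (lp (fun _ : Y => ℂ) 2 →L[ℂ] lp (fun _ : Y => ℂ) 2),
      (∀ a ∈ closure {T : lp (fun _ : X => ℂ) 2 →L[ℂ] lp (fun _ : X => ℂ) 2 |
              ∃ r : ℝ, ∀ x x' : X, r < dist x x' → (T (lp.single 2 x (1 : ℂ))) x' = 0},
        ∀ b ∈ closure {T : lp (fun _ : X => ℂ) 2 →L[ℂ] lp (fun _ : X => ℂ) 2 |
              ∃ r : ℝ, ∀ x x' : X, r < dist x x' → (T (lp.single 2 x (1 : ℂ))) x' = 0},
        ∀ c : ℂ,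
          Φ (a + b) = Φ a + Φ b ∧ Φ (c • a) = c • Φ a ∧
          Φ (a * b) = Φ a * Φ b ∧ Φ (star a) = star (Φ a)) ∧
      Set.InjOn Φ (closure {T : lp (fun _ : X => ℂ) 2 →L[ℂ] lp (fun _ : X => ℂ) 2 |
              ∃ r : ℝ, ∀ x x' : X, r < dist x x' → (T (lp.single 2 x (1 : ℂ))) x' = 0}) ∧
      (∀ a ∈ closure {T : lp (fun _ : X => ℂ) 2 →L[ℂ] lp (fun _ : X => ℂ) 2 |
              ∃ r : ℝ, ∀ x x' : X, r < dist x x' → (T (lp.single 2 x (1 : ℂ))) x' = 0},
        Φ a ∈ closure {S : lp (fun _ : Y => ℂ) 2 →L[ℂ] lp (fun _ : Y => ℂ) 2 |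
              ∃ r : ℝ, ∀ y y' : Y, r < dist y y' → (S (lp.single 2 y (1 : ℂ))) y' = 0}) ∧
      (∀ a ∈ closure {T : lp (fun _ : X => ℂ) 2 →L[ℂ] lp (fun _ : X => ℂ) 2 |
              ∃ r : ℝ, ∀ x x' : X, r < dist x x' → (T (lp.single 2 x (1 : ℂ))) x' = 0},
        IsCompactOperator a → IsCompactOperator (Φ a)))

open scoped Classical in
/-- the clause of the second frozen statement -/
def StEB : Prop :=
  ∀ (X Y : Type) [MetricSpace X] [MetricSpace Y] (W : Hs X →L[ℂ] Hs Y),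
    ContinuousLinearMap.adjoint W ∘L W = 1 →
    (∀ T : Op X, FinProp T → W ∘L T ∘L ContinuousLinearMap.adjoint W ∈ uRoe Y) →
      (∃ φ : ↥((StarAlgebra.adjoin ℂ
                {a : lp (fun _ : X => ℂ) 2 →L[ℂ] lp (fun _ : X => ℂ) 2 |
                  ∃ r : ℝ, ∀ x x' : X, r < dist x x' →
                    inner ℂ (lp.single 2 x (1 : ℂ) : lp (fun _ : X => ℂ) 2)
                      (a (lp.single 2 x' (1 : ℂ) : lp (fun _ : X => ℂ) 2)) = 0}).topologicalClosure)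
            →⋆ₙₐ[ℂ]
            ↥((StarAlgebra.adjoin ℂ
                {b : lp (fun _ : Y => ℂ) 2 →L[ℂ] lp (fun _ : Y => ℂ) 2 |
                  ∃ r : ℝ, ∀ y y' : Y, r < dist y y' →
                    inner ℂ (lp.single 2 y (1 : ℂ) : lp (fun _ : Y => ℂ) 2)
                      (b (lp.single 2 y' (1 : ℂ) : lp (fun _ : Y => ℂ) 2)) = 0}).topologicalClosure),
          Function.Injective φ)

end Pool.Agent.Helper7_FC
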